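import Pool.Agent.Results.MP_c7a479_co.VariationalCubeExistence

set_option autoImplicit false

/-!
# MP_2d9e0f_co: deleting a coordinate from an all-or-nothing transform

A `(1,3,6)`-AONT exists, but no `(1,2,6)`-AONT exists.
-/

namespace Pool.Agent.Results.MP_2d9e0f_co.DeletionFails

open Function Pool.Agent.H430R2.PermCubes

/-- `φ : X^s → X^s` is a `(t,s,|X|)`-all-or-nothing transform: `φ` is a bijection, and for all sets
`I`, `J` of `t` coordinates the map `X^s → X^t × X^(s-t)` which sends `x` to the coordinates of `x`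
in `I` and the coordinates of `φ x` outside `J` is a bijection. -/
def IsAONT (t s : ℕ) {X : Type} (φ : (Fin s → X) → (Fin s → X)) : Prop :=
  Bijective φ ∧ ∀ I J : Finset (Fin s), I.card = t → J.card = t →
    Bijective (fun x : Fin s → X =>
      ((fun i : {i // i ∈ I} => x i, fun j : {j // j ∉ J} => φ x j) :
        ({i // i ∈ I} → X) × ({j // j ∉ J} → X)))

/-- a `(t,s,v)`-AONT exists (on the alphabet `{0, …, v - 1}`) -/
def ExistsAONT (t s v : ℕ) : Prop := ∃ φ : (Fin s → Fin v) → (Fin s → Fin v), IsAONT t s φ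

theorem isAONT_of_injective {t s v : ℕ} {φ : (Fin s → Fin v) → (Fin s → Fin v)}
    (h : Injective φ)
    (hIJ : ∀ I J : Finset (Fin s), I.card = t → J.card = t → ∀ x x' : Fin s → Fin v,
      (∀ i ∈ I, x i = x' i) → (∀ j, j ∉ J → φ x j = φ x' j) → x = x') : IsAONT t s φ := by
  refine ⟨Finite.injective_iff_bijective.1 h, fun I J hI hJ => ?_⟩
  rw [Fintype.bijective_iff_injective_and_card]
  constructor
  · intro x x' hx
    have h1 := congrArg Prod.fst hx
    have h2 := congrArg Prod.snd hx
    exact hIJ I J hI hJ x x' (fun i hi => congrFun h1 ⟨i, hi⟩) (fun j hj => congrFun h2 ⟨j, hj⟩)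
  · have hc : Fintype.card {j : Fin s // j ∉ J} = s - t := by
      rw [Fintype.card_subtype_compl, Fintype.card_fin, Fintype.card_coe, hJ]
    have hts : t ≤ s := by
      have := Finset.card_le_univ I
      rwa [hI, Fintype.card_fin] at this
    rw [Fintype.card_prod, Fintype.card_fun, Fintype.card_fun, Fintype.card_fun, hc,
      Fintype.card_coe, hI, Fintype.card_fin, Fintype.card_fin, ← pow_add,
      Nat.add_sub_cancel' hts]

/-- a `(1,s,v)`-AONT is the same as `s` orthogonal latin hypercubes of dimension `s` -/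
theorem existsAONT_one_iff (s v : ℕ) :
    ExistsAONT 1 s v ↔ ∃ C : Fin s → (Fin s → Fin v) → Fin v, IsVariationalSet s v s C := by
  constructor
  · rintro ⟨φ, hφ, hIJ⟩
    obtain ⟨ψ, hψ⟩ : ∃ ψ : (Fin s → Fin v) ≃ (Fin s → Fin v), ∀ x, ψ x = φ x :=
      ⟨Equiv.ofBijective φ hφ, fun _ => rfl⟩
    refine ⟨fun i y => ψ.symm y i, ?_, ?_⟩
    · intro i j y
      rw [← Finite.injective_iff_bijective]
      intro a b hab
      have h1 : ψ.symm (update y j a) i = ψ.symm (update y j b) i := hab
      have h2 : ψ.symm (update y j a) = ψ.symm (update y j b) := by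
        refine (hIJ {i} {j} (Finset.card_singleton i) (Finset.card_singleton j)).1
          (Prod.ext ?_ ?_)
        · funext ⟨k, hk⟩
          rw [Finset.mem_singleton] at hk
          subst hk
          exact h1
        · funext ⟨k, hk⟩
          rw [Finset.mem_singleton] at hk
          show φ (ψ.symm (update y j a)) k = φ (ψ.symm (update y j b)) k
          rw [← hψ, ← hψ, Equiv.apply_symm_apply, Equiv.apply_symm_apply,
            update_of_ne hk, update_of_ne hk]
      have h3 := congrFun (ψ.symm.injective h2) j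
      rwa [update_self, update_self] at h3
    · intro e he
      rw [← Finite.injective_iff_bijective]
      intro y y' hy
      apply ψ.symm.injective
      funext i
      obtain ⟨j, rfl⟩ := (Finite.injective_iff_surjective.1 he) i
      exact congrFun hy j
  · rintro ⟨C, hC1, hC2⟩
    have hb : Bijective (fun (y : Fin s → Fin v) (i : Fin s) => C i y) := hC2 id injective_id
    obtain ⟨ψ, hψ⟩ : ∃ ψ : (Fin s → Fin v) ≃ (Fin s → Fin v), ∀ y i, ψ y i = C i y :=
      ⟨Equiv.ofBijective _ hb, fun _ _ => rfl⟩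
    refine ⟨ψ.symm, isAONT_of_injective ψ.symm.injective ?_⟩
    intro I J hI hJ x x' hx hφ
    obtain ⟨i, rfl⟩ := Finset.card_eq_one.1 hI
    obtain ⟨j, rfl⟩ := Finset.card_eq_one.1 hJ
    have h1 : x i = x' i := hx i (Finset.mem_singleton_self i)
    have h2 : ∀ k, k ≠ j → ψ.symm x k = ψ.symm x' k := fun k hk =>
      hφ k (by rwa [Finset.mem_singleton])
    have h3 : ψ.symm x = update (ψ.symm x') j (ψ.symm x j) := by
      funext k
      by_cases hk : k = j
      · subst hk
        rw [update_self]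
      · rw [update_of_ne hk]
        exact h2 k hk
    have h4 : ψ.symm x' = update (ψ.symm x') j (ψ.symm x' j) := (update_eq_self j _).symm
    have h5 : C i (update (ψ.symm x') j (ψ.symm x j)) = C i (update (ψ.symm x') j (ψ.symm x' j)) := by
      rw [← h3, ← h4, ← hψ, ← hψ, Equiv.apply_symm_apply, Equiv.apply_symm_apply]
      exact h1
    have h6 : ψ.symm x j = ψ.symm x' j := (hC1 i j (ψ.symm x')).1 h5
    apply ψ.symm.injective
    rw [h3, h6, ← h4]

theorem result :
    -- the negative answer to Q1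
    (∃ v t s : ℕ, 1 ≤ v ∧ 1 ≤ t ∧ t ≤ s - 1 ∧ ExistsAONT t s v ∧ ¬ ExistsAONT t (s - 1) v) ∧
    -- the spectrum for `t = 1`
    (∀ s v : ℕ, 1 ≤ s → 1 ≤ v →
      (ExistsAONT 1 s v ↔ s = 1 ∨ v = 1 ∨ (v ≠ 2 ∧ ¬ (s = 2 ∧ v = 6)))) ∧
    -- for `t = 1` a coordinate can be deleted except for `s = 3` and `v = 6`
    (∀ s v : ℕ, 2 ≤ s → 1 ≤ v → ExistsAONT 1 s v →
      (ExistsAONT 1 (s - 1) v ↔ ¬ (s = 3 ∧ v = 6))) := by
  have key : ∀ s v : ℕ, 1 ≤ s → 1 ≤ v →
      (ExistsAONT 1 s v ↔ s = 1 ∨ v = 1 ∨ (v ≠ 2 ∧ ¬ (s = 2 ∧ v = 6))) := by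
    intro s v hs hv
    rcases Nat.lt_or_ge 1 s with hs2 | hs1
    swap
    · have hs1' : s = 1 := by omega
      subst hs1'
      refine ⟨fun _ => Or.inl rfl, fun _ => ⟨id, isAONT_of_injective injective_id ?_⟩⟩
      intro I J hI _ x x' hx _
      obtain ⟨i, rfl⟩ := Finset.card_eq_one.1 hI
      funext k
      have hk : k = i := Subsingleton.elim _ _
      subst hk
      exact hx k (Finset.mem_singleton_self k)
    rcases Nat.lt_or_ge 1 v with hv2 | hv1
    swap
    · have hv1' : v = 1 := by omega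
      subst hv1'
      exact ⟨fun _ => Or.inr (Or.inl rfl), fun _ => ⟨id, isAONT_of_injective injective_id
        fun _ _ _ _ _ _ _ _ => Subsingleton.elim _ _⟩⟩
    rw [existsAONT_one_iff,
      (Pool.Agent.Results.MP_c7a479_co.VariationalCubeExistence.result.2.2.1) s v hs2 hv2]
    constructor
    · exact fun h => Or.inr (Or.inr h)
    · rintro (h | h | h)
      · omega
      · omega
      · exact h
  refine ⟨⟨6, 1, 3, by norm_num, le_rfl, by norm_num, ?_, ?_⟩, key, ?_⟩
  · rw [key 3 6 (by norm_num) (by norm_num)]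
    norm_num
  · rw [key (3 - 1) 6 (by norm_num) (by norm_num)]
    norm_num
  · intro s v hs hv h
    rw [key s v (by omega) hv] at h
    rw [key (s - 1) v (by omega) hv]
    omega

end Pool.Agent.Results.MP_2d9e0f_co.DeletionFails
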